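import Pool.Agent.K7.H78.WS.Meas

set_option autoImplicit false

open MeasureTheory Metric Set Filter Topology
open scoped ComplexConjugate ENNReal
open Pool.Agent.Helper684.GX.Ergo

namespace Pool.Agent.K7.H78.WS

noncomputable section

/-- jacobian factor -/
def Jf (α : ℝ) (p w : ℂ) : ℝ := ((1 - ‖p‖ ^ 2) / ‖1 + conj p * w‖ ^ 2) ^ (α + 2)

lemma cov {α : ℝ} (hα : 0 < α) {p : ℂ} (hp : p ∈ ball (0 : ℂ) 1) {F : ℂ → ℂ}
    (hFi : Integrable F (bm α)) :
    Integrable (fun w => Jf α p w • F (mob p w)) (bm α) ∧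
      ∫ z, F z ∂(bm α) = ∫ w, Jf α p w • F (mob p w) ∂(bm α) := by
  have hT := measurePreserving_mob hp
  have hWm : Measurable (fun z => ENNReal.ofReal (W α z)) := (W_meas α).ennreal_ofReal
  have hlt : ∀ᵐ z ∂hypVol, ENNReal.ofReal (W α z) < ∞ :=
    Eventually.of_forall fun _ => ENNReal.ofReal_lt_top
  rw [bm_eq hα] at hFi ⊢
  rw [integrable_withDensity_iff_integrable_smul' hWm hlt] at hFi
  rw [integrable_withDensity_iff_integrable_smul' hWm hlt,
    integral_withDensity_eq_integral_toReal_smul hWm hlt,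
    integral_withDensity_eq_integral_toReal_smul hWm hlt]
  set G : ℂ → ℂ := fun z => (ENNReal.ofReal (W α z)).toReal • F z with hG
  have hae : (fun w => G (mob p w)) =ᵐ[hypVol]
      fun w => (ENNReal.ofReal (W α w)).toReal • Jf α p w • F (mob p w) := by
    filter_upwards [cc5] with w hw
    have h0 := sq_lt_one_of_mem hp
    have h1 := sq_lt_one_of_mem hw
    have k1 : 0 < ‖1 + conj p * w‖ := norm_pos_iff.mpr (one_add_ne hp hw)
    simp only [hG]
    rw [ENNReal.toReal_ofReal (W_nonneg hα (mob_mem hp hw)), ENNReal.toReal_ofReal (W_nonneg hα hw),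
      smul_smul]
    congr 1
    unfold W Jf
    rw [one_sub_norm_mob hp hw, mul_assoc, ← Real.mul_rpow (by positivity) (by positivity)]
    congr 2
    ring
  have h2 := hT.integrable_comp_of_integrable hFi
  refine ⟨h2.congr hae, ?_⟩
  rw [← integral_congr_ae hae]
  have h := integral_map (μ := hypVol) hT.measurable.aemeasurable
      (f := G) (by rw [hT.map_eq]; exact hFi.1)
  rw [hT.map_eq] at h
  exact h

/-- kernel -/
def Kb (α : ℝ) (p z : ℂ) : ℂ := (1 - conj p * z) ^ (-((α + 2 : ℝ) : ℂ))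

lemma re_pos {p z : ℂ} (h : ‖p‖ * ‖z‖ < 1) : 0 < (1 - conj p * z).re := by
  have h1 : (conj p * z).re ≤ ‖conj p * z‖ := Complex.re_le_norm _
  rw [norm_mul, Complex.norm_conj] at h1
  simp only [Complex.sub_re, Complex.one_re]
  linarith

lemma cpow_eq {x : ℂ} (hx : 0 < x.re) (s : ℂ) : x ^ s = Complex.exp (Complex.log x * s) := by
  rw [Complex.cpow_def_of_ne_zero]
  rintro rfl
  simp at hx

lemma log_div {r : ℝ} (hr : 0 < r) {x : ℂ} (hx : 0 < x.re) :
    Complex.log ((r : ℂ) / x) = Real.log r - Complex.log x := by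
  have hx0 : x ≠ 0 := by
    rintro rfl
    simp at hx
  have harg : |x.arg| < Real.pi / 2 := Complex.abs_arg_lt_pi_div_two_iff.2 (Or.inl hx)
  have hpi := Real.pi_pos
  rw [div_eq_mul_inv, Complex.log_ofReal_mul hr (inv_ne_zero hx0), Complex.log_inv]
  · ring
  · intro h
    rw [h, abs_of_pos hpi] at harg
    linarith

lemma log_conj' {x : ℂ} (hx : 0 < x.re) : Complex.log (conj x) = conj (Complex.log x) := by
  apply Complex.log_conj
  have harg : |x.arg| < Real.pi / 2 := Complex.abs_arg_lt_pi_div_two_iff.2 (Or.inl hx)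
  have hpi := Real.pi_pos
  intro h
  rw [h, abs_of_pos hpi] at harg
  linarith

lemma norm_rpow_eq {x : ℂ} (hx : 0 < x.re) (s : ℝ) :
    (((‖x‖ ^ 2) ^ s : ℝ) : ℂ) = x ^ (s : ℂ) * conj (x ^ (s : ℂ)) := by
  have hx0 : x ≠ 0 := by
    rintro rfl
    simp at hx
  rw [Complex.mul_conj, Complex.normSq_eq_norm_sq, Complex.norm_cpow_real]
  norm_cast
  rw [← Real.rpow_natCast, ← Real.rpow_natCast, ← Real.rpow_mul (norm_nonneg x),
    ← Real.rpow_mul (norm_nonneg x)]
  congr 1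
  push_cast
  ring

/-- the pulled back integrand is holomorphic -/
lemma pull_eq {α : ℝ} {p w : ℂ} (hp : p ∈ ball (0 : ℂ) 1) (hw : w ∈ ball (0 : ℂ) 1) (y : ℂ) :
    Jf α p w • (conj (Kb α p (mob p w)) * y) = (1 + conj p * w) ^ (-((α + 2 : ℝ) : ℂ)) * y := by
  have h0 := sq_lt_one_of_mem hp
  have h1 := sq_lt_one_of_mem hw
  have hpn : ‖p‖ < 1 := by simpa using hp
  have hwn : ‖w‖ < 1 := by simpa using hw
  have hx : 0 < (1 + conj p * w).re := by
    have := re_pos (p := p) (z := -w) (by rw [norm_neg]; nlinarith [norm_nonneg p, norm_nonneg w])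
    simpa using this
  set x : ℂ := 1 + conj p * w with hxdef
  have hx0 : x ≠ 0 := by
    intro h
    rw [h] at hx
    simp at hx
  have e1 : 1 - conj p * mob p w = ((1 - ‖p‖ ^ 2 : ℝ) : ℂ) / x := by
    rw [eq_div_iff hx0]
    unfold mob
    rw [← hxdef, sub_mul, mul_assoc, div_mul_cancel₀ _ hx0, hxdef]
    have : ((‖p‖ ^ 2 : ℝ) : ℂ) = conj p * p := by
      rw [← Complex.normSq_eq_conj_mul_self, Complex.normSq_eq_norm_sq]
    push_cast at this ⊢
    rw [this]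
    ring
  have hxn : 0 < ‖x‖ := norm_pos_iff.2 hx0
  have hs : (-((α + 2 : ℝ) : ℂ)) = ((-(α + 2) : ℝ) : ℂ) := by push_cast; ring
  have e2 : Kb α p (mob p w) = (((1 - ‖p‖ ^ 2) ^ (-(α + 2)) : ℝ) : ℂ) * x ^ (((α + 2 : ℝ) : ℂ)) := by
    unfold Kb
    rw [e1, Complex.cpow_def_of_ne_zero (div_ne_zero (by exact_mod_cast h0.ne') hx0), log_div h0 hx,
      cpow_eq hx, Real.rpow_def_of_pos h0]
    push_cast
    rw [← Complex.exp_add]
    congr 1
    ring
  have e3 : (Jf α p w : ℂ) * ((((‖x‖ ^ 2) ^ (α + 2) : ℝ)) : ℂ) = (((1 - ‖p‖ ^ 2) ^ (α + 2) : ℝ) : ℂ) := by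
    unfold Jf
    rw [← hxdef]
    norm_cast
    rw [Real.div_rpow h0.le (by positivity), div_mul_cancel₀]
    positivity
  have e4 : ((((1 - ‖p‖ ^ 2) ^ (α + 2) : ℝ)) : ℂ) * (((1 - ‖p‖ ^ 2) ^ (-(α + 2)) : ℝ) : ℂ) = 1 := by
    norm_cast
    rw [← Real.rpow_add h0]
    simp
  have e5 : x ^ (((α + 2 : ℝ) : ℂ)) * x ^ (-((α + 2 : ℝ) : ℂ)) = 1 := by
    rw [← Complex.cpow_add _ _ hx0]
    simp
  rw [norm_rpow_eq hx] at e3
  rw [e2, Complex.real_smul, map_mul, Complex.conj_ofReal]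
  have hX0 : x ^ (((α + 2 : ℝ) : ℂ)) ≠ 0 := left_ne_zero_of_mul_eq_one e5
  set X := x ^ (((α + 2 : ℝ) : ℂ)) with hX
  have e6 : x ^ (-((α + 2 : ℝ) : ℂ)) = X⁻¹ := by
    refine eq_inv_of_mul_eq_one_left ?_
    rw [mul_comm]; exact e5
  rw [e6]
  have e7 : (Jf α p w : ℂ) * ((((1 - ‖p‖ ^ 2) ^ (-(α + 2)) : ℝ) : ℂ) * conj X) * X = 1 := by
    calc (Jf α p w : ℂ) * ((((1 - ‖p‖ ^ 2) ^ (-(α + 2)) : ℝ) : ℂ) * conj X) * X
        = ((Jf α p w : ℂ) * (X * conj X)) * (((1 - ‖p‖ ^ 2) ^ (-(α + 2)) : ℝ) : ℂ) := by ring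
      _ = 1 := by rw [e3, e4]
  have e8 : (Jf α p w : ℂ) * ((((1 - ‖p‖ ^ 2) ^ (-(α + 2)) : ℝ) : ℂ) * conj X) = X⁻¹ := by
    exact eq_inv_of_mul_eq_one_left e7
  rw [← mul_assoc, e8]

/-- reproducing property -/
lemma repro {α : ℝ} (hα : 0 < α) {p : ℂ} (hp : p ∈ ball (0 : ℂ) 1) {h : ℂ → ℂ}
    (hd : DifferentiableOn ℂ h (ball (0 : ℂ) 1))
    (hi : Integrable (fun z => conj (Kb α p z) * h z) (bm α)) :
    ∫ z, conj (Kb α p z) * h z ∂(bm α) = ((bm α).real univ : ℂ) * h p := by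
  obtain ⟨h1, h2⟩ := cov hα hp hi
  have hae : (fun w => Jf α p w • (conj (Kb α p (mob p w)) * h (mob p w))) =ᵐ[bm α]
      fun w => (1 + conj p * w) ^ (-((α + 2 : ℝ) : ℂ)) * h (mob p w) := by
    filter_upwards [bm_ae (α := α)] with w hw
    exact pull_eq hp hw _
  rw [h2, integral_congr_ae hae, mean_val hα _ (h1.congr hae)]
  · have : mob p 0 = p := by unfold mob; simp
    rw [this]
    simp
  · refine DifferentiableOn.mul ?_ ?_
    · intro w hw
      have hpn : ‖p‖ < 1 := by simpa using hp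
      have hwn : ‖w‖ < 1 := by simpa using hw
      have hx : 0 < (1 + conj p * w).re := by
        have := re_pos (p := p) (z := -w) (by rw [norm_neg]; nlinarith [norm_nonneg p, norm_nonneg w])
        simpa using this
      refine DifferentiableAt.differentiableWithinAt ?_
      exact DifferentiableAt.cpow_const (by fun_prop) (Or.inl hx)
    · exact hd.comp (differentiableOn_mob hp) (fun w hw => mob_mem hp hw)

lemma Kb_diff {α : ℝ} {p : ℂ} {R : ℝ} (hR : ‖p‖ * R ≤ 1) :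
    DifferentiableOn ℂ (Kb α p) (ball (0 : ℂ) R) := by
  intro z hz
  have hz' : ‖z‖ < R := by simpa using hz
  have hlt : ‖p‖ * ‖z‖ < 1 := by
    by_cases hp : p = 0
    · subst hp; simp
    · have : 0 < ‖p‖ := norm_pos_iff.2 hp
      calc ‖p‖ * ‖z‖ < ‖p‖ * R := by gcongr
        _ ≤ 1 := hR
  have hx := re_pos hlt
  unfold Kb
  refine DifferentiableAt.differentiableWithinAt ?_
  refine DifferentiableAt.cpow_const (by fun_prop) ?_
  exact Or.inl hx

end

end Pool.Agent.K7.H78.WS
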