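import Pool.Agent.K7.H78.WS.Space

set_option autoImplicit false

open MeasureTheory Metric Set Filter Topology
open scoped ComplexConjugate ENNReal
open Pool.Agent.Helper684.GX.Ergo

namespace Pool.Agent.K7.H78.WS

noncomputable section

variable {α : ℝ}

/-- the value of the kernel at the extra zero -/
lemma kval {t φ s : ℝ} (ht : 0 < t) (h1 : -Real.pi < φ) (h2 : φ ≤ Real.pi)
    (h3 : Complex.exp ((φ : ℂ) * s * Complex.I) = 1) :
    ((t : ℂ) * Complex.exp ((φ : ℂ) * Complex.I)) ^ (s : ℂ) = (t : ℂ) ^ (s : ℂ) := by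
  have htc : (t : ℂ) ≠ 0 := by exact_mod_cast ht.ne'
  have hlog : Complex.log ((t : ℂ) * Complex.exp ((φ : ℂ) * Complex.I)) =
      Real.log t + (φ : ℂ) * Complex.I := by
    rw [Complex.log_ofReal_mul ht (Complex.exp_ne_zero _), Complex.log_exp]
    · simpa using h1
    · simpa using h2
  rw [Complex.cpow_def_of_ne_zero (mul_ne_zero htc (Complex.exp_ne_zero _)),
    Complex.cpow_def_of_ne_zero htc, hlog, add_mul, Complex.exp_add, ← Complex.ofReal_log ht.le]
  have : (φ : ℂ) * Complex.I * (s : ℂ) = (φ : ℂ) * s * Complex.I := by ring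
  rw [this, h3, mul_one]

/-- parameters -/
lemma params (hα : 4 < α) : ∃ l ζ : ℂ, ‖l‖ < 1 ∧ ‖ζ‖ < 1 ∧ l ≠ 0 ∧ ζ ≠ l ∧
    Kb α ζ l = Kb α l l ∧ Kb α l ζ = Kb α l l := by
  have hpi := Real.pi_pos
  set θ : ℝ := 2 * Real.pi / (α + 2) with hθ
  have hθ0 : 0 < θ := by positivity
  have hθ1 : θ < Real.pi / 3 := by
    rw [hθ, div_lt_div_iff₀ (by linarith) (by norm_num)]
    nlinarith
  have hcos : 1 / 2 < Real.cos θ := by
    rw [← Real.cos_pi_div_three]
    exact Real.cos_lt_cos_of_nonneg_of_le_pi_div_two hθ0.le (by linarith) hθ1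
  have hcos1 : Real.cos θ < 1 := by
    rw [← Real.cos_zero]
    exact Real.cos_lt_cos_of_nonneg_of_le_pi_div_two le_rfl (by linarith) hθ0
  set t : ℝ := (2 * Real.cos θ - 1) / 2 with ht
  have ht0 : 0 < t := by rw [ht]; linarith
  have ht1 : t < 1 / 2 := by rw [ht]; linarith
  set r : ℝ := Real.sqrt (1 - t) with hr
  have hr0 : 0 < r := Real.sqrt_pos.2 (by linarith)
  have hr2 : r ^ 2 = 1 - t := Real.sq_sqrt (by linarith)
  have hr1 : r < 1 := by nlinarith
  have hrc : (r : ℂ) ≠ 0 := by exact_mod_cast hr0.ne'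
  set e : ℂ := Complex.exp ((θ : ℂ) * Complex.I) with he
  have hee : e = (Real.cos θ : ℂ) + (Real.sin θ : ℂ) * Complex.I := by
    rw [he, Complex.exp_mul_I]
    push_cast
    ring
  have hconj : conj e = Complex.exp (((-θ : ℝ) : ℂ) * Complex.I) := by
    rw [he, ← Complex.exp_conj]
    congr 1
    simp
  refine ⟨r, (1 - t * e) / r, ?_, ?_, hrc, ?_, ?_, ?_⟩
  · rw [Complex.norm_real, Real.norm_of_nonneg hr0.le]; exact hr1
  · rw [norm_div, Complex.norm_real, Real.norm_of_nonneg hr0.le, div_lt_one hr0]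
    have h1 : ‖1 - (t : ℂ) * e‖ ^ 2 = 1 - 2 * t * Real.cos θ + t ^ 2 := by
      rw [Complex.sq_norm, Complex.normSq_apply, hee]
      simp only [Complex.sub_re, Complex.one_re, Complex.mul_re, Complex.ofReal_re, Complex.add_re,
        Complex.I_re, mul_zero, Complex.ofReal_im, Complex.I_im, mul_one, sub_self, add_zero,
        Complex.add_im, Complex.mul_im, zero_add, zero_mul, sub_zero, Complex.sub_im,
        Complex.one_im, zero_sub]
      have := Real.sin_sq_add_cos_sq θ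
      nlinarith
    have h2 : ‖1 - (t : ℂ) * e‖ ^ 2 < r ^ 2 := by
      rw [h1, hr2]
      have : 2 * t = 2 * Real.cos θ - 1 := by rw [ht]; ring
      nlinarith
    exact lt_of_pow_lt_pow_left₀ 2 hr0.le h2
  · intro h
    rw [div_eq_iff hrc] at h
    have h1 : (r : ℂ) * r = ((1 - t : ℝ) : ℂ) := by
      rw [← hr2]; push_cast; ring
    rw [h1] at h
    have h2 : (t : ℂ) * e = t := by
      push_cast at h
      linear_combination -h
    have htc : (t : ℂ) ≠ 0 := by exact_mod_cast ht0.ne'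
    have h3 : e = 1 := by
      have := mul_left_cancel₀ htc (h2.trans (mul_one _).symm)
      exact this
    have h4 := congrArg Complex.re h3
    rw [hee] at h4
    simp at h4
    rw [← Complex.ofReal_cos, Complex.ofReal_re] at h4
    linarith
  · have hs : (-((α + 2 : ℝ) : ℂ)) = ((-(α + 2) : ℝ) : ℂ) := by push_cast; ring
    have e1 : 1 - conj ((1 - (t : ℂ) * e) / r) * r = (t : ℂ) * Complex.exp (((-θ : ℝ) : ℂ) * Complex.I) := by
      rw [map_div₀, map_sub, map_mul, Complex.conj_ofReal, Complex.conj_ofReal, map_one,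
        div_mul_cancel₀ _ hrc, hconj]
      ring
    have e2 : 1 - conj (r : ℂ) * r = (t : ℂ) := by
      rw [Complex.conj_ofReal]
      have : (r : ℂ) * r = ((1 - t : ℝ) : ℂ) := by
        rw [← hr2]; push_cast; ring
      rw [this]; push_cast; ring
    unfold Kb
    rw [e1, e2, hs]
    refine kval ht0 (by linarith) (by linarith) ?_
    have : ((-θ : ℝ) : ℂ) * ((-(α + 2) : ℝ) : ℂ) * Complex.I = 2 * Real.pi * Complex.I := by
      have h5 : θ * (α + 2) = 2 * Real.pi := by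
        rw [hθ]; field_simp
      have h6 : ((-θ : ℝ) : ℂ) * ((-(α + 2) : ℝ) : ℂ) = ((θ * (α + 2) : ℝ) : ℂ) := by
        push_cast; ring
      rw [h6, h5]
      push_cast; ring
    rw [this]
    exact Complex.exp_two_pi_mul_I
  · have hs : (-((α + 2 : ℝ) : ℂ)) = ((-(α + 2) : ℝ) : ℂ) := by push_cast; ring
    have e1 : 1 - conj (r : ℂ) * ((1 - (t : ℂ) * e) / r) = (t : ℂ) * Complex.exp (((θ : ℝ) : ℂ) * Complex.I) := by
      rw [Complex.conj_ofReal, mul_div_cancel₀ _ hrc]
      ring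
    have e2 : 1 - conj (r : ℂ) * r = (t : ℂ) := by
      rw [Complex.conj_ofReal]
      have : (r : ℂ) * r = ((1 - t : ℝ) : ℂ) := by
        rw [← hr2]; push_cast; ring
      rw [this]; push_cast; ring
    unfold Kb
    rw [e1, e2, hs]
    refine kval ht0 (by linarith) (by linarith) ?_
    have : ((θ : ℝ) : ℂ) * ((-(α + 2) : ℝ) : ℂ) * Complex.I = -(2 * Real.pi * Complex.I) := by
      have h5 : θ * (α + 2) = 2 * Real.pi := by
        rw [hθ]; field_simp
      have h6 : ((θ : ℝ) : ℂ) * ((-(α + 2) : ℝ) : ℂ) = -((θ * (α + 2) : ℝ) : ℂ) := by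
        push_cast; ring
      rw [h6, h5]
      push_cast; ring
    rw [this, Complex.exp_neg, Complex.exp_two_pi_mul_I, inv_one]

lemma Kb_zero (p : ℂ) : Kb α p 0 = 1 := by
  unfold Kb
  simp

/-- division by `z` of the difference of two kernels -/
lemma quot [Fact (0 < α)] {l ζ : ℂ} (hl : ‖l‖ < 1) (hζ : ‖ζ‖ < 1) (hl0 : l ≠ 0)
    (hval : Kb α ζ l = Kb α l l) :
    ∃ q : ℂ → ℂ, DifferentiableOn ℂ q (ball (0 : ℂ) 1) ∧ (∃ C : ℝ, ∀ z : ℂ, ‖z‖ < 1 → ‖q z‖ ≤ C) ∧
      q l = 0 ∧ ∀ z : ℂ, z * q z = Kb α ζ z - Kb α l z := by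
  set F : ℂ → ℂ := fun z => Kb α ζ z - Kb α l z with hF
  have hF0 : F 0 = 0 := by simp [hF, Kb_zero]
  -- a radius larger than one
  obtain ⟨R, hR1, hRl, hRζ⟩ : ∃ R : ℝ, 1 < R ∧ ‖l‖ * R ≤ 1 ∧ ‖ζ‖ * R ≤ 1 := by
    set m : ℝ := max ‖l‖ ‖ζ‖ with hm
    have hm1 : m < 1 := max_lt hl hζ
    have hm0 : 0 < m := lt_max_of_lt_left (norm_pos_iff.2 hl0)
    refine ⟨1 / m, ?_, ?_, ?_⟩
    · rw [lt_div_iff₀ hm0]; linarith
    · rw [mul_one_div, div_le_one hm0]; exact le_max_left _ _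
    · rw [mul_one_div, div_le_one hm0]; exact le_max_right _ _
  have hFd : DifferentiableOn ℂ F (ball (0 : ℂ) R) := (Kb_diff hRζ).sub (Kb_diff hRl)
  have hqd : DifferentiableOn ℂ (dslope F 0) (ball (0 : ℂ) R) :=
    (Complex.differentiableOn_dslope (isOpen_ball.mem_nhds (by simpa using (by linarith : 0 < R)))).2 hFd
  have hid : ∀ z : ℂ, z * dslope F 0 z = F z := by
    intro z
    have := sub_smul_dslope F 0 z
    rw [sub_zero, hF0, sub_zero, smul_eq_mul] at this
    exact this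
  refine ⟨dslope F 0, hqd.mono (ball_subset_ball hR1.le), ?_, ?_, hid⟩
  · have hc : ContinuousOn (dslope F 0) (closedBall (0 : ℂ) 1) :=
      hqd.continuousOn.mono (closedBall_subset_ball hR1)
    obtain ⟨C, hC⟩ := (isCompact_closedBall (0 : ℂ) 1).exists_bound_of_continuousOn hc
    exact ⟨C, fun z hz => hC z (by simpa using hz.le)⟩
  · have h1 := hid l
    have h2 : F l = 0 := by simp [hF, hval]
    rw [h2] at h1
    exact (mul_eq_zero.1 h1).resolve_left hl0

theorem main (hα : 4 < α) :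
      ∃ V : Submodule ℂ (Lp ℂ 2 (bm α)),
        IsClosed (V : Set (Lp ℂ 2 (bm α))) ∧
        (∀ f ∈ V, ∃ g : ℂ → ℂ,
            DifferentiableOn ℂ g (Metric.ball (0 : ℂ) 1) ∧ (f : ℂ → ℂ) =ᵐ[bm α] g) ∧
        (∀ f ∈ V, ∃ g ∈ V, (g : ℂ → ℂ) =ᵐ[bm α] fun z => z * f z) ∧
        ¬ (V ≤ (Submodule.span ℂ
              {h : Lp ℂ 2 (bm α) | ∃ p : Polynomial ℂ, ∃ w ∈ V,
                (∀ f ∈ V, ∀ g ∈ V,
                    (g : ℂ → ℂ) =ᵐ[bm α] (fun z => z * f z) → inner ℂ g w = 0) ∧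
                (h : ℂ → ℂ) =ᵐ[bm α] fun z => p.eval z * w z}).topologicalClosure) := by
  have hα0 : 0 < α := by linarith
  haveI : Fact (0 < α) := ⟨hα0⟩
  have hM := Mt_pos hα0
  have hMc : (Mt α : ℂ) ≠ 0 := by exact_mod_cast hM.ne'
  obtain ⟨l, ζ, hl, hζ, hl0, hne, hv1, hv2⟩ := params hα
  refine ⟨VV α l, VV_closed l, fun f hf => hf.1, ?_, ?_⟩
  · intro f hf
    obtain ⟨g, hg, hfg⟩ := hf.1
    have hgl : g l = 0 := (mem_VV hl hg hfg).1 hf
    have hd : DifferentiableOn ℂ (fun z => z * g z) (ball (0 : ℂ) 1) := differentiableOn_id.mul hg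
    have hm : MemLp (fun z => z * g z) 2 (bm α) := by
      refine ((Lp.memLp f).ae_eq hfg).of_le (aesm_of_diff hd) ?_
      filter_upwards [bm_ae (α := α)] with z hz
      have hz' : ‖z‖ < 1 := by simpa using hz
      rw [norm_mul]
      nlinarith [norm_nonneg (g z), norm_nonneg z]
    refine ⟨hm.toLp _, ?_, ?_⟩
    · rw [mem_VV hl hd (MemLp.coeFn_toLp _), hgl, mul_zero]
    · filter_upwards [MemLp.coeFn_toLp hm, hfg] with z h1 h2
      rw [h1, h2]
  · intro hle
    -- the evaluation at `ζ` vanishes on the span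
    have hker : (Submodule.span ℂ
              {h : Lp ℂ 2 (bm α) | ∃ p : Polynomial ℂ, ∃ w ∈ VV α l,
                (∀ f ∈ VV α l, ∀ g ∈ VV α l,
                    (g : ℂ → ℂ) =ᵐ[bm α] (fun z => z * f z) → inner ℂ g w = 0) ∧
                (h : ℂ → ℂ) =ᵐ[bm α] fun z => p.eval z * w z}).topologicalClosure ≤
        LinearMap.ker (innerSL ℂ (kE α ζ)).toLinearMap := by
      refine Submodule.topologicalClosure_minimal _ ?_ ?_
      · rw [Submodule.span_le]
        rintro h ⟨p, w, hw, horth, hh⟩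
        obtain ⟨gw, hgw, hwg⟩ := hw.1
        have hwl : gw l = 0 := (mem_VV hl hgw hwg).1 hw
        -- the extremal relation
        obtain ⟨q, hqd, ⟨C, hqC⟩, hql, hq⟩ := quot (α := α) hl hζ hl0 hv1
        have hqm : MemLp q 2 (bm α) := memLp_of_bdd hqd hqC
        have hqV : hqm.toLp q ∈ VV α l := (mem_VV hl hqd (MemLp.coeFn_toLp _)).2 hql
        have hFae : ((kE α ζ - kE α l : Lp ℂ 2 (bm α)) : ℂ → ℂ) =ᵐ[bm α]
            fun z => Kb α ζ z - Kb α l z := by
          filter_upwards [Lp.coeFn_sub (kE α ζ) (kE α l), kE_ae hζ, kE_ae hl] with z h1 h2 h3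
          rw [h1, Pi.sub_apply, h2, h3]
        have hFV : (kE α ζ - kE α l : Lp ℂ 2 (bm α)) ∈ VV α l := by
          refine (mem_VV hl ?_ hFae).2 ?_
          · exact (Kb_diff (by linarith)).sub (Kb_diff (by linarith))
          · simp [hv1]
        have h0 := horth _ hqV _ hFV (by
          filter_upwards [hFae, MemLp.coeFn_toLp hqm] with z h1 h2
          rw [h1, h2, hq])
        rw [inner_sub_left, inner_kE hζ hgw hwg, inner_kE hl hgw hwg, hwl, mul_zero, sub_zero] at h0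
        have hz0 : gw ζ = 0 := (mul_eq_zero.1 h0).resolve_left hMc
        have hhd : DifferentiableOn ℂ (fun z => p.eval z * gw z) (ball (0 : ℂ) 1) :=
          (p.differentiable.differentiableOn).mul hgw
        have hhae : (h : ℂ → ℂ) =ᵐ[bm α] fun z => p.eval z * gw z := by
          filter_upwards [hh, hwg] with z h1 h2
          rw [h1, h2]
        show (innerSL ℂ (kE α ζ)) h = 0
        rw [innerSL_apply_apply, inner_kE hζ hhd hhae, hz0, mul_zero, mul_zero]
      · exact ContinuousLinearMap.isClosed_ker (innerSL ℂ (kE α ζ))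
    -- the function `z - l`
    have hd : DifferentiableOn ℂ (fun z : ℂ => z - l) (ball (0 : ℂ) 1) := by fun_prop
    have hm : MemLp (fun z : ℂ => z - l) 2 (bm α) :=
      memLp_of_bdd hd (C := 2) (fun z hz => (norm_sub_le _ _).trans (by linarith))
    have hmem : hm.toLp _ ∈ VV α l := (mem_VV hl hd (MemLp.coeFn_toLp _)).2 (sub_self l)
    have h1 := hker (hle hmem)
    have h2 : (innerSL ℂ (kE α ζ)) (hm.toLp _) = 0 := h1
    rw [innerSL_apply_apply, inner_kE hζ hd (MemLp.coeFn_toLp _)] at h2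
    exact hne (sub_eq_zero.1 ((mul_eq_zero.1 h2).resolve_left hMc))

end

end Pool.Agent.K7.H78.WS
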