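import Pool.Agent.Helper684.GX.Ergo.HypMob

set_option autoImplicit false

open MeasureTheory Metric Set Filter Topology
open scoped ComplexConjugate ENNReal
open Pool.Agent.Helper684.GX.Ergo

namespace Pool.Agent.K7.H78.WS

noncomputable section

/-- weighted Bergman measure -/
def bm (α : ℝ) : Measure ℂ :=
  (volume.restrict (ball (0 : ℂ) 1)).withDensity
            (fun z : ℂ => ENNReal.ofReal ((1 + α) * (1 - ‖z‖ ^ 2) ^ α / Real.pi))

/-- density with respect to hyperbolic area -/
def W (α : ℝ) (z : ℂ) : ℝ := (1 + α) / Real.pi * (1 - ‖z‖ ^ 2) ^ (α + 2)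

lemma W_meas (α : ℝ) : Measurable (W α) := by
  unfold W; fun_prop

lemma W_nonneg {α : ℝ} (hα : 0 < α) {z : ℂ} (hz : z ∈ ball (0 : ℂ) 1) : 0 ≤ W α z := by
  have := sq_lt_one_of_mem hz
  unfold W
  positivity

lemma W_pos {α : ℝ} (hα : 0 < α) {z : ℂ} (hz : z ∈ ball (0 : ℂ) 1) : 0 < W α z := by
  have := sq_lt_one_of_mem hz
  unfold W
  positivity

lemma bm_eq {α : ℝ} (hα : 0 < α) :
    bm α = hypVol.withDensity (fun z => ENNReal.ofReal (W α z)) := by
  unfold bm hypVol
  rw [← withDensity_mul _ (by fun_prop) (by exact (W_meas α).ennreal_ofReal)]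
  refine withDensity_congr_ae ?_
  filter_upwards [ae_restrict_mem (measurableSet_ball (x := (0 : ℂ)) (ε := 1))] with z hz
  have h1 := sq_lt_one_of_mem hz
  simp only [Pi.mul_apply]
  rw [← ENNReal.ofReal_mul (by positivity)]
  congr 1
  unfold W
  rw [Real.rpow_add h1, Real.rpow_two]
  field_simp

lemma bm_ae {α : ℝ} : ∀ᵐ z ∂(bm α), z ∈ ball (0 : ℂ) 1 := by
  have h := ae_restrict_mem (μ := (volume : Measure ℂ)) (measurableSet_ball (x := (0 : ℂ)) (ε := 1))
  exact (withDensity_absolutelyContinuous _ _).ae_le h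

instance bm_fin {α : ℝ} [Fact (0 < α)] : IsFiniteMeasure (bm α) := by
  have hα : 0 < α := Fact.out
  constructor
  unfold bm
  rw [withDensity_apply _ MeasurableSet.univ, Measure.restrict_univ]
  calc ∫⁻ z in ball (0 : ℂ) 1, ENNReal.ofReal ((1 + α) * (1 - ‖z‖ ^ 2) ^ α / Real.pi)
      ≤ ∫⁻ z in ball (0 : ℂ) 1, ENNReal.ofReal ((1 + α) / Real.pi) := by
        refine lintegral_mono_ae ?_
        filter_upwards [ae_restrict_mem (measurableSet_ball (x := (0 : ℂ)) (ε := 1))] with z hz
        have h1 := sq_lt_one_of_mem hz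
        refine ENNReal.ofReal_le_ofReal ?_
        have h2 : (1 - ‖z‖ ^ 2) ^ α ≤ 1 :=
          Real.rpow_le_one h1.le (by nlinarith [norm_nonneg z]) hα.le
        have h3 : (1 + α) * (1 - ‖z‖ ^ 2) ^ α ≤ (1 + α) * 1 :=
          mul_le_mul_of_nonneg_left h2 (by linarith)
        rw [mul_one] at h3
        exact div_le_div_of_nonneg_right h3 Real.pi_pos.le
    _ < ⊤ := by
        simp only [lintegral_const, Measure.restrict_apply MeasurableSet.univ, univ_inter]
        exact ENNReal.mul_lt_top ENNReal.ofReal_lt_top measure_ball_lt_top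

lemma rot_mp {α : ℝ} (hα : 0 < α) {c : ℂ} (hc : ‖c‖ = 1) :
    MeasurePreserving (fun z : ℂ => c * z) (bm α) (bm α) := by
  have hT := measurePreserving_rot hc
  have hWm : Measurable (fun z => ENNReal.ofReal (W α z)) := (W_meas α).ennreal_ofReal
  refine ⟨by fun_prop, Measure.ext fun A hA => ?_⟩
  rw [Measure.map_apply (by fun_prop) hA, bm_eq hα, withDensity_apply _ hA,
    withDensity_apply _ (hT.measurable hA), ← lintegral_indicator hA,
    ← lintegral_indicator (hT.measurable hA), ← hT.lintegral_comp (hWm.indicator hA)]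
  refine lintegral_congr fun z => ?_
  by_cases h : c * z ∈ A
  · rw [indicator_of_mem (show z ∈ (fun z : ℂ => c * z) ⁻¹' A from h), indicator_of_mem h]
    simp [W, hc]
  · rw [indicator_of_notMem (show z ∉ (fun z : ℂ => c * z) ⁻¹' A from h), indicator_of_notMem h]

/-- mean value property -/
lemma mean_val {α : ℝ} (hα : 0 < α) {g : ℂ → ℂ} (hg : DifferentiableOn ℂ g (ball (0 : ℂ) 1))
    (hi : Integrable g (bm α)) : ∫ z, g z ∂(bm α) = ((bm α).real univ : ℂ) * g 0 := by
  haveI : Fact (0 < α) := ⟨hα⟩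
  set g' : ℂ → ℂ := (ball (0 : ℂ) 1).indicator g with hg'
  have hgm : Measurable g' := by
    classical
    have : Measurable ((ball (0 : ℂ) 1).piecewise g 0) :=
      hg.continuousOn.measurable_piecewise continuousOn_const measurableSet_ball
    rwa [piecewise_eq_indicator] at this
  have hae : g =ᵐ[bm α] g' := by
    filter_upwards [bm_ae (α := α)] with z hz
    rw [hg', indicator_of_mem hz]
  have hi' : Integrable g' (bm α) := hi.congr hae
  have hrot : ∀ θ : ℝ, ∫ z, g' (circleMap 0 1 θ * z) ∂(bm α) = ∫ z, g' z ∂(bm α) := by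
    intro θ
    have hT := rot_mp hα (c := circleMap 0 1 θ) (by simp)
    have h := integral_map (μ := bm α) hT.measurable.aemeasurable
      (f := g') (by rw [hT.map_eq]; exact hi'.1)
    rw [hT.map_eq] at h
    exact h.symm
  have hrotn : ∀ θ : ℝ, ∫ z, ‖g' (circleMap 0 1 θ * z)‖ ∂(bm α) = ∫ z, ‖g' z‖ ∂(bm α) := by
    intro θ
    have hT := rot_mp hα (c := circleMap 0 1 θ) (by simp)
    have h := integral_map (μ := bm α) hT.measurable.aemeasurable
      (f := fun z => ‖g' z‖) (by rw [hT.map_eq]; exact hi'.1.norm)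
    rw [hT.map_eq] at h
    exact h.symm
  set ν : Measure ℝ := volume.restrict (Ioc 0 (2 * Real.pi)) with hν
  haveI : IsFiniteMeasure ν := by rw [hν]; infer_instance
  have hjm : Measurable (fun q : ℝ × ℂ => g' (circleMap 0 1 q.1 * q.2)) := by
    refine hgm.comp ?_
    have : Continuous fun q : ℝ × ℂ => circleMap 0 1 q.1 * q.2 := by fun_prop
    exact this.measurable
  have hji : Integrable (Function.uncurry fun (θ : ℝ) (z : ℂ) => g' (circleMap 0 1 θ * z))
      (ν.prod (bm α)) := by
    refine (integrable_prod_iff (f := Function.uncurry fun (θ : ℝ) (z : ℂ) => g' (circleMap 0 1 θ * z)) hjm.aestronglyMeasurable).2 ?_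
    constructor
    · refine Eventually.of_forall fun θ => ?_
      have hT := rot_mp hα (c := circleMap 0 1 θ) (by simp)
      exact hT.integrable_comp_of_integrable hi'
    · have : (fun x : ℝ => ∫ y, ‖Function.uncurry (fun (θ : ℝ) (z : ℂ) => g' (circleMap 0 1 θ * z)) (x, y)‖
          ∂(bm α)) = fun _ => ∫ z, ‖g' z‖ ∂(bm α) := by
        funext θ
        exact hrotn θ
      rw [this]
      exact integrable_const _
  have hswap := integral_integral_swap hji
  have hL : ∫ θ, ∫ z, g' (circleMap 0 1 θ * z) ∂(bm α) ∂ν = (2 * Real.pi : ℝ) * ∫ z, g' z ∂(bm α) := by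
    simp_rw [hrot]
    rw [integral_const, hν, measureReal_restrict_apply MeasurableSet.univ, univ_inter,
      Real.volume_real_Ioc_of_le (by positivity), sub_zero, Complex.real_smul]
  have hR : ∫ z, ∫ θ, g' (circleMap 0 1 θ * z) ∂ν ∂(bm α) =
      ∫ z, ((2 * Real.pi : ℝ) : ℂ) * g 0 ∂(bm α) := by
    refine integral_congr_ae ?_
    filter_upwards [bm_ae (α := α)] with z hz
    have hz' : ‖z‖ < 1 := by simpa using hz
    have hd : DifferentiableOn ℂ (fun u : ℂ => g (u * z)) (closedBall 0 1) := by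
      refine hg.comp (by fun_prop) ?_
      intro u hu
      simp only [mem_closedBall_zero_iff] at hu
      simp only [mem_ball_zero_iff, norm_mul]
      nlinarith [norm_nonneg u, norm_nonneg z]
    have hc : Real.circleAverage (fun u : ℂ => g (u * z)) 0 1 = g (0 * z) :=
      DiffContOnCl.circleAverage (f := fun u : ℂ => g (u * z)) (by
        have := hd.diffContOnCl_ball (c := (0:ℂ)) (R := 1) subset_rfl
        simpa using this)
    rw [Real.circleAverage_def, zero_mul, intervalIntegral.integral_of_le (by positivity)] at hc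
    have : ∫ θ, g' (circleMap 0 1 θ * z) ∂ν = ∫ θ in Ioc 0 (2 * Real.pi), g (circleMap 0 1 θ * z) := by
      rw [hν]
      refine integral_congr_ae (Eventually.of_forall fun θ => ?_)
      simp only [hg']
      rw [indicator_of_mem]
      simpa using hz'
    rw [this]
    rw [inv_smul_eq_iff₀ (by positivity)] at hc
    rw [hc, Complex.real_smul]
  have hfin : ((2 * Real.pi : ℝ) : ℂ) * ∫ z, g' z ∂(bm α) =
      ((2 * Real.pi : ℝ) : ℂ) * (((bm α).real univ : ℂ) * g 0) := by
    rw [← hL, hswap, hR, integral_const, Complex.real_smul]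
    ring
  rw [integral_congr_ae hae]
  have h2 : ((2 * Real.pi : ℝ) : ℂ) ≠ 0 := by
    exact_mod_cast (by positivity : (2 * Real.pi : ℝ) ≠ 0)
  exact mul_left_cancel₀ h2 hfin

end

end Pool.Agent.K7.H78.WS
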