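import Pool.Agent.K7.H78.WS.Kern

set_option autoImplicit false

open MeasureTheory Metric Set Filter Topology
open scoped ComplexConjugate ENNReal
open Pool.Agent.Helper684.GX.Ergo

namespace Pool.Agent.K7.H78.WS

noncomputable section

variable {α : ℝ}

/-- has a holomorphic representative -/
def Hol (f : Lp ℂ 2 (bm α)) : Prop :=
  ∃ g : ℂ → ℂ, DifferentiableOn ℂ g (ball (0 : ℂ) 1) ∧ (f : ℂ → ℂ) =ᵐ[bm α] g

lemma Kb_bdd (hα : 0 < α) {p z : ℂ} (hp : ‖p‖ < 1) (hz : ‖z‖ < 1) :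
    ‖Kb α p z‖ ≤ (1 - ‖p‖) ^ (-(α + 2)) := by
  unfold Kb
  have e : (-((α + 2 : ℝ) : ℂ)) = ((-(α + 2) : ℝ) : ℂ) := by push_cast; ring
  rw [e, Complex.norm_cpow_real]
  refine Real.rpow_le_rpow_of_nonpos (by linarith) ?_ (by linarith)
  have h1 : ‖(1 : ℂ)‖ - ‖conj p * z‖ ≤ ‖1 - conj p * z‖ := norm_sub_norm_le _ _
  rw [norm_mul, Complex.norm_conj, norm_one] at h1
  nlinarith [norm_nonneg p, norm_nonneg z]

lemma aesm_of_diff {h : ℂ → ℂ} (hd : DifferentiableOn ℂ h (ball (0 : ℂ) 1)) :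
    AEStronglyMeasurable h (bm α) := by
  have h1 : AEStronglyMeasurable h (volume.restrict (ball (0 : ℂ) 1)) :=
    hd.continuousOn.aestronglyMeasurable measurableSet_ball
  exact h1.mono_ac (withDensity_absolutelyContinuous _ _)

lemma memLp_of_bdd [Fact (0 < α)] {h : ℂ → ℂ} (hd : DifferentiableOn ℂ h (ball (0 : ℂ) 1))
    {C : ℝ} (hC : ∀ z : ℂ, ‖z‖ < 1 → ‖h z‖ ≤ C) : MemLp h 2 (bm α) := by
  refine MemLp.of_bound (aesm_of_diff hd) C ?_
  filter_upwards [bm_ae (α := α)] with z hz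
  exact hC z (by simpa using hz)

lemma memLp_Kb [Fact (0 < α)] {p : ℂ} (hp : ‖p‖ < 1) : MemLp (Kb α p) 2 (bm α) :=
  memLp_of_bdd (Kb_diff (by linarith)) (fun _ hz => Kb_bdd Fact.out hp hz)

/-- the kernel as an element of the space -/
def kE (α : ℝ) [Fact (0 < α)] (p : ℂ) : Lp ℂ 2 (bm α) :=
  open Classical in if h : ‖p‖ < 1 then (memLp_Kb h).toLp _ else 0

lemma kE_ae [Fact (0 < α)] {p : ℂ} (hp : ‖p‖ < 1) : (kE α p : ℂ → ℂ) =ᵐ[bm α] Kb α p := by
  unfold kE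
  rw [dif_pos hp]
  exact MemLp.coeFn_toLp _

lemma kE_hol [Fact (0 < α)] {p : ℂ} (hp : ‖p‖ < 1) : Hol (kE α p) :=
  ⟨Kb α p, Kb_diff (by linarith), kE_ae hp⟩

/-- total mass -/
def Mt (α : ℝ) : ℝ := (bm α).real univ

lemma Mt_pos (hα : 0 < α) : 0 < Mt α := by
  haveI : Fact (0 < α) := ⟨hα⟩
  unfold Mt
  rw [measureReal_def, ENNReal.toReal_pos_iff]
  refine ⟨?_, measure_lt_top _ _⟩
  rw [pos_iff_ne_zero]
  intro h
  have h0 : bm α = 0 := Measure.measure_univ_eq_zero.1 h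
  unfold bm at h0
  rw [withDensity_eq_zero_iff (by fun_prop)] at h0
  have h1 : ∀ᵐ z ∂(volume.restrict (ball (0 : ℂ) 1)), False := by
    filter_upwards [h0, ae_restrict_mem (measurableSet_ball (x := (0 : ℂ)) (ε := 1))] with z hz hb
    have h2 := sq_lt_one_of_mem hb
    have h3 : 0 < (1 + α) * (1 - ‖z‖ ^ 2) ^ α / Real.pi := by positivity
    simp only [Pi.zero_apply, ENNReal.ofReal_eq_zero] at hz
    linarith
  rw [ae_iff] at h1
  simp only [not_false_eq_true, ofPred_true, Measure.restrict_apply_univ] at h1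
  have := measure_ball_pos (volume : Measure ℂ) (0 : ℂ) (one_pos)
  rw [h1] at this
  exact lt_irrefl _ this

lemma inner_kE [Fact (0 < α)] {p : ℂ} (hp : ‖p‖ < 1) {f : Lp ℂ 2 (bm α)} {g : ℂ → ℂ}
    (hg : DifferentiableOn ℂ g (ball (0 : ℂ) 1)) (hfg : (f : ℂ → ℂ) =ᵐ[bm α] g) :
    inner ℂ (kE α p) f = (Mt α : ℂ) * g p := by
  rw [L2.inner_def]
  have hae : (fun a => inner ℂ ((kE α p : ℂ → ℂ) a) ((f : ℂ → ℂ) a)) =ᵐ[bm α]
      fun z => conj (Kb α p z) * g z := by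
    filter_upwards [kE_ae hp, hfg] with z h1 h2
    rw [RCLike.inner_apply, h1, h2, mul_comm]
  rw [integral_congr_ae hae]
  exact repro Fact.out (by simpa using hp) hg ((L2.integrable_inner (kE α p) f).congr hae)

lemma kE_norm [Fact (0 < α)] {p : ℂ} (hp : ‖p‖ < 1) :
    ‖kE α p‖ ≤ (measureUnivNNReal (bm α) : ℝ) ^ (2 : ℝ≥0∞).toReal⁻¹ * (1 - ‖p‖) ^ (-(α + 2)) := by
  refine Lp.norm_le_of_ae_bound ?_ ?_
  · have : 0 < 1 - ‖p‖ := by linarith
    positivity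
  · filter_upwards [kE_ae hp, bm_ae (α := α)] with z h1 h2
    rw [h1]
    exact Kb_bdd Fact.out hp (by simpa using h2)

lemma closed_hol [Fact (0 < α)] : IsClosed {f : Lp ℂ 2 (bm α) | Hol f} := by
  have hα : 0 < α := Fact.out
  have hM := Mt_pos hα
  refine isClosed_of_closure_subset fun f hf => ?_
  obtain ⟨u, hu, hlim⟩ := mem_closure_iff_seq_limit.1 hf
  choose g hg hug using hu
  set G : ℂ → ℂ := fun p => inner ℂ (kE α p) f / (Mt α : ℂ) with hG
  have hMc : (Mt α : ℂ) ≠ 0 := by exact_mod_cast hM.ne'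
  have hgv : ∀ n p, ‖p‖ < 1 → g n p = inner ℂ (kE α p) (u n) / (Mt α : ℂ) := by
    intro n p hp
    rw [inner_kE hp (hg n) (hug n), mul_div_cancel_left₀ _ hMc]
  have hloc : TendstoLocallyUniformlyOn g G atTop (ball (0 : ℂ) 1) := by
    rw [Metric.tendstoLocallyUniformlyOn_iff]
    intro ε hε x hx
    have hx1 : ‖x‖ < 1 := by simpa using hx
    set r : ℝ := (1 + ‖x‖) / 2 with hr
    have hxr : ‖x‖ < r := by rw [hr]; linarith
    have hr1 : r < 1 := by rw [hr]; linarith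
    set C : ℝ := (measureUnivNNReal (bm α) : ℝ) ^ (2 : ℝ≥0∞).toReal⁻¹ * (1 - r) ^ (-(α + 2)) with hC
    have hC0 : 0 ≤ C := by
      have : 0 < 1 - r := by linarith
      rw [hC]; positivity
    refine ⟨ball 0 r, mem_nhdsWithin_of_mem_nhds (isOpen_ball.mem_nhds (by simpa using hxr)), ?_⟩
    have hev : ∀ᶠ n in atTop, ‖u n - f‖ < ε * Mt α / (C + 1) := by
      have := (tendsto_iff_norm_sub_tendsto_zero.1 hlim)
      exact this.eventually (gt_mem_nhds (by positivity))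
    filter_upwards [hev] with n hn y hy
    have hyr : ‖y‖ < r := by simpa using hy
    have hy1 : ‖y‖ < 1 := hyr.trans hr1
    rw [dist_comm, dist_eq_norm, hgv n y hy1, hG]
    simp only
    rw [← sub_div, ← inner_sub_right, norm_div, Complex.norm_real, Real.norm_of_nonneg hM.le,
      div_lt_iff₀ hM]
    have h1 : ‖kE α y‖ ≤ C := by
      refine (kE_norm hy1).trans ?_
      rw [hC]
      refine mul_le_mul_of_nonneg_left ?_ (by positivity)
      exact Real.rpow_le_rpow_of_nonpos (by linarith) (by linarith) (by linarith)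
    calc ‖inner ℂ (kE α y) (u n - f)‖ ≤ ‖kE α y‖ * ‖u n - f‖ := norm_inner_le_norm _ _
      _ ≤ C * (ε * Mt α / (C + 1)) := by gcongr
      _ < ε * Mt α := by
        rw [mul_div_assoc', div_lt_iff₀ (by positivity)]
        have : 0 < ε * Mt α := by positivity
        nlinarith
  refine ⟨G, hloc.differentiableOn (Eventually.of_forall hg) isOpen_ball, ?_⟩
  have hmeas := tendstoInMeasure_of_tendsto_Lp hlim
  obtain ⟨ns, hns, hae⟩ := hmeas.exists_seq_tendsto_ae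
  have hall : ∀ᵐ z ∂(bm α), ∀ n, (u n : ℂ → ℂ) z = g n z := by
    rw [ae_all_iff]; exact hug
  filter_upwards [hae, hall, bm_ae (α := α)] with z h1 h2 h3
  have h4 : Tendsto (fun i => g (ns i) z) atTop (𝓝 (G z)) :=
    (hloc.tendsto_at h3).comp hns.tendsto_atTop
  simp only [h2] at h1
  exact tendsto_nhds_unique h1 h4

/-- holomorphic functions vanishing at `l` -/
def VV (α : ℝ) [Fact (0 < α)] (l : ℂ) : Submodule ℂ (Lp ℂ 2 (bm α)) where
  carrier := {f | Hol f ∧ inner ℂ (kE α l) f = 0}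
  add_mem' := by
    rintro f h ⟨⟨gf, hgf, hf⟩, hf0⟩ ⟨⟨gh, hgh, hh⟩, hh0⟩
    refine ⟨⟨gf + gh, hgf.add hgh, (Lp.coeFn_add f h).trans (hf.add hh)⟩, ?_⟩
    rw [inner_add_right, hf0, hh0, add_zero]
  zero_mem' := ⟨⟨0, differentiableOn_const 0, Lp.coeFn_zero _ _ _⟩, inner_zero_right _⟩
  smul_mem' := by
    rintro c f ⟨⟨gf, hgf, hf⟩, hf0⟩
    refine ⟨⟨c • gf, hgf.const_smul c, (Lp.coeFn_smul c f).trans (hf.const_smul c)⟩, ?_⟩
    rw [inner_smul_right, hf0, mul_zero]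

lemma VV_closed [Fact (0 < α)] (l : ℂ) : IsClosed ((VV α l : Submodule ℂ (Lp ℂ 2 (bm α))) : Set (Lp ℂ 2 (bm α))) := by
  have h2 : IsClosed {f : Lp ℂ 2 (bm α) | inner ℂ (kE α l) f = 0} :=
    isClosed_eq (continuous_const.inner continuous_id) continuous_const
  exact closed_hol.inter h2

lemma mem_VV [Fact (0 < α)] {l : ℂ} (hl : ‖l‖ < 1) {f : Lp ℂ 2 (bm α)} {g : ℂ → ℂ}
    (hg : DifferentiableOn ℂ g (ball (0 : ℂ) 1)) (hfg : (f : ℂ → ℂ) =ᵐ[bm α] g) :
    f ∈ VV α l ↔ g l = 0 := by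
  have hM := Mt_pos (α := α) Fact.out
  have hMc : (Mt α : ℂ) ≠ 0 := by exact_mod_cast hM.ne'
  constructor
  · rintro ⟨_, h⟩
    rw [inner_kE hl hg hfg] at h
    exact (mul_eq_zero.1 h).resolve_left hMc
  · intro h
    refine ⟨⟨g, hg, hfg⟩, ?_⟩
    rw [inner_kE hl hg hfg, h, mul_zero]

end

end Pool.Agent.K7.H78.WS
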